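import Mathlib

/-!
# The zero set of a real analytic function has measure zero
-/

set_option autoImplicit false

namespace Pool.Agent.H44.CM

open Set MeasureTheory Topology Filter

variable {F : Type*} [NormedAddCommGroup F] [NormedSpace ℝ F]

theorem null_one {U : Set ℝ} (hU : IsPreconnected U) {f : ℝ → F} (hf : AnalyticOnNhd ℝ f U)
    (h0 : ∃ x ∈ U, f x ≠ 0) : volume {x ∈ U | f x = 0} = 0 := by
  apply measure_null_of_locally_null
  rintro t ⟨htU, ht0⟩
  refine ⟨{t}, ?_, by simp⟩
  rcases (hf t htU).eventually_eq_zero_or_eventually_ne_zero with h | h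
  · exfalso
    obtain ⟨x, hx, hne⟩ := h0
    exact hne (hf.eqOn_zero_of_preconnected_of_eventuallyEq_zero hU htU h hx)
  · rw [eventually_nhdsWithin_iff] at h
    rw [mem_nhdsWithin_iff_eventually]
    filter_upwards [h] with z hz hzZ
    by_contra hzt
    exact hz hzt hzZ.2

/-- the open box -/
def box {m : ℕ} (a b : Fin m → ℝ) : Set (Fin m → ℝ) := {x | ∀ i, x i ∈ Ioo (a i) (b i)}

theorem box_eq {m : ℕ} (a b : Fin m → ℝ) : box a b = Set.pi univ fun i => Ioo (a i) (b i) := by
  ext x; simp [box]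

theorem isOpen_box {m : ℕ} (a b : Fin m → ℝ) : IsOpen (box a b) := by
  rw [box_eq]
  exact isOpen_set_pi finite_univ fun i _ => isOpen_Ioo

theorem analytic_cons {m : ℕ} (t : ℝ) (y : Fin m → ℝ) :
    AnalyticAt ℝ (fun y : Fin m → ℝ => (Fin.cons t y : Fin (m + 1) → ℝ)) y := by
  have : ∀ i : Fin (m + 1), AnalyticAt ℝ (fun y : Fin m → ℝ => (Fin.cons t y : Fin (m + 1) → ℝ) i) y := by
    intro i
    refine Fin.cases ?_ (fun j => ?_) i
    · simp only [Fin.cons_zero]; exact analyticAt_const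
    · simp only [Fin.cons_succ]
      exact (ContinuousLinearMap.proj (R := ℝ) (φ := fun _ : Fin m => ℝ) j).analyticAt y
  exact analyticAt_pi_iff.mpr this

theorem analytic_cons' {m : ℕ} (t : ℝ) (y : Fin m → ℝ) :
    AnalyticAt ℝ (fun t : ℝ => (Fin.cons t y : Fin (m + 1) → ℝ)) t := by
  have : ∀ i : Fin (m + 1), AnalyticAt ℝ (fun t : ℝ => (Fin.cons t y : Fin (m + 1) → ℝ) i) t := by
    intro i
    refine Fin.cases ?_ (fun j => ?_) i
    · simp only [Fin.cons_zero]; exact analyticAt_id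
    · simp only [Fin.cons_succ]; exact analyticAt_const
  exact analyticAt_pi_iff.mpr this

theorem measurableSet_zero {X : Type*} [TopologicalSpace X] [MeasurableSpace X] [BorelSpace X]
    {U : Set X} (hU : IsOpen U) {f : X → F} (hf : ContinuousOn f U) :
    MeasurableSet {x ∈ U | f x = 0} := by
  have h1 : IsOpen (U ∩ f ⁻¹' {0}ᶜ) := hf.isOpen_inter_preimage hU isOpen_compl_singleton
  have h2 : {x ∈ U | f x = 0} = U \ (U ∩ f ⁻¹' {0}ᶜ) := by
    ext x; simp only [mem_ofPred_eq, Set.mem_sdiff, mem_inter_iff, mem_preimage, mem_compl_iff,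
      mem_singleton_iff]; tauto
  rw [h2]
  exact hU.measurableSet.diff h1.measurableSet

theorem null_box : ∀ (m : ℕ) (f : (Fin m → ℝ) → F) (a b : Fin m → ℝ),
    AnalyticOnNhd ℝ f (box a b) → (∃ x ∈ box a b, f x ≠ 0) → volume {x ∈ box a b | f x = 0} = 0
  | 0, f, a, b, _, h0 => by
    obtain ⟨x, _, hx⟩ := h0
    have : {x ∈ box a b | f x = 0} = ∅ := by
      ext y
      simp only [mem_ofPred_eq, mem_empty_iff_false, iff_false, not_and]
      intro _
      rw [Subsingleton.elim y x]
      exact hx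
    rw [this]; exact measure_empty
  | m + 1, f, a, b, hf, h0 => by
    set Z := {x ∈ box a b | f x = 0} with hZ
    have hZm : MeasurableSet Z := measurableSet_zero (isOpen_box a b) hf.continuousOn
    have hem := volume_preserving_piFinSuccAbove (fun _ : Fin (m + 1) => ℝ) 0
    set e := MeasurableEquiv.piFinSuccAbove (fun _ : Fin (m + 1) => ℝ) 0 with he
    have hsymm : ∀ p : ℝ × (Fin m → ℝ), e.symm p = (Fin.cons p.1 p.2 : Fin (m + 1) → ℝ) := by
      intro p
      ext i
      refine Fin.cases ?_ (fun j => ?_) i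
      · rfl
      · rfl
    have h1 : volume Z = volume (e.symm ⁻¹' Z) := (hem.symm.measure_preimage_equiv Z).symm
    rw [h1, Measure.volume_eq_prod]
    obtain ⟨x0, hx0, hfx0⟩ := h0
    have hx0' : (Fin.cons (x0 0) (Fin.tail x0) : Fin (m + 1) → ℝ) = x0 := Fin.cons_self_tail x0
    have hbox : ∀ (t : ℝ) (y : Fin m → ℝ), (Fin.cons t y : Fin (m + 1) → ℝ) ∈ box a b ↔
        t ∈ Ioo (a 0) (b 0) ∧ y ∈ box (Fin.tail a) (Fin.tail b) := by
      intro t y
      simp only [box, mem_ofPred_eq, Fin.forall_fin_succ, Fin.cons_zero, Fin.cons_succ, Fin.tail]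
    have hx1 : x0 0 ∈ Ioo (a 0) (b 0) ∧ Fin.tail x0 ∈ box (Fin.tail a) (Fin.tail b) := by
      rw [← hbox, hx0']; exact hx0
    apply Measure.measure_prod_null_of_ae_null (e.symm.measurable hZm)
    have hnull : volume {t ∈ Ioo (a 0) (b 0) | f (Fin.cons t (Fin.tail x0)) = 0} = 0 := by
      apply null_one (f := fun t => f (Fin.cons t (Fin.tail x0))) isPreconnected_Ioo
      · intro t ht
        exact AnalyticAt.fun_comp (hf _ ((hbox t _).mpr ⟨ht, hx1.2⟩)) (analytic_cons' t _)
      · exact ⟨x0 0, hx1.1, by rw [hx0']; exact hfx0⟩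
    rw [Filter.EventuallyEq, ae_iff]
    refine measure_mono_null ?_ hnull
    intro t ht
    simp only [Pi.zero_apply, mem_ofPred_eq] at ht
    by_contra hcon
    apply ht
    by_cases htI : t ∈ Ioo (a 0) (b 0)
    · have hne : f (Fin.cons t (Fin.tail x0)) ≠ 0 := fun h => hcon ⟨htI, h⟩
      have h3 := null_box m (fun y => f (Fin.cons t y)) (Fin.tail a) (Fin.tail b)
        (fun y hy => AnalyticAt.fun_comp (hf _ ((hbox t y).mpr ⟨htI, hy⟩)) (analytic_cons t y))
        ⟨Fin.tail x0, hx1.2, hne⟩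
      refine measure_mono_null ?_ h3
      intro y hy
      have hy' : e.symm (t, y) ∈ Z := hy
      rw [hsymm] at hy'
      exact ⟨((hbox t y).mp hy'.1).2, hy'.2⟩
    · refine measure_mono_null ?_ measure_empty (μ := volume)
      intro y hy
      have hy' : e.symm (t, y) ∈ Z := hy
      rw [hsymm] at hy'
      exact htI ((hbox t y).mp hy'.1).1

/-- The zeros of a real analytic function on a connected open set of `ℝ ^ m` form a null set. -/
theorem null_pi {m : ℕ} {U : Set (Fin m → ℝ)} (hU : IsOpen U) (hc : IsPreconnected U)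
    {f : (Fin m → ℝ) → F} (hf : AnalyticOnNhd ℝ f U) (h0 : ∃ x ∈ U, f x ≠ 0) :
    volume {x ∈ U | f x = 0} = 0 := by
  apply measure_null_of_locally_null
  rintro x ⟨hxU, hx0⟩
  obtain ⟨r, hr, hball⟩ := Metric.isOpen_iff.mp hU x hxU
  have hb : box (fun i => x i - r) (fun i => x i + r) = Metric.ball x r := by
    rw [box_eq, ball_pi x hr]
    congr 1
    ext i z
    rw [Real.ball_eq_Ioo]
  have hsub : box (fun i => x i - r) (fun i => x i + r) ⊆ U := hb ▸ hball
  refine ⟨{z ∈ box (fun i => x i - r) (fun i => x i + r) | f z = 0}, ?_, ?_⟩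
  · rw [mem_nhdsWithin_iff_eventually]
    have : box (fun i => x i - r) (fun i => x i + r) ∈ 𝓝 x := by
      rw [hb]; exact Metric.ball_mem_nhds x hr
    filter_upwards [this] with z hz hzZ
    exact ⟨hz, hzZ.2⟩
  · apply null_box m f _ _ (hf.mono hsub)
    by_contra hcon
    push Not at hcon
    obtain ⟨y, hy, hne⟩ := h0
    apply hne
    refine hf.eqOn_zero_of_preconnected_of_eventuallyEq_zero hc hxU ?_ hy
    have : box (fun i => x i - r) (fun i => x i + r) ∈ 𝓝 x := by
      rw [hb]; exact Metric.ball_mem_nhds x hr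
    filter_upwards [this] with z hz
    exact hcon z hz

/-- The same in any finite dimensional real space with a Haar measure. -/
theorem null_haar {E : Type*} [NormedAddCommGroup E] [NormedSpace ℝ E] [FiniteDimensional ℝ E]
    [MeasurableSpace E] [BorelSpace E] (μ : Measure E) [μ.IsAddHaarMeasure]
    {U : Set E} (hU : IsOpen U) (hc : IsPreconnected U) {f : E → F} (hf : AnalyticOnNhd ℝ f U)
    (h0 : ∃ x ∈ U, f x ≠ 0) : μ {x ∈ U | f x = 0} = 0 := by
  let L : E ≃L[ℝ] (Fin (Module.finrank ℝ E) → ℝ) :=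
    ContinuousLinearEquiv.ofFinrankEq (by simp)
  have h1 := null_pi (U := L '' U) (L.toHomeomorph.isOpenMap U hU)
    (hc.image L L.continuous.continuousOn) (f := fun y => f (L.symm y)) (by
      rintro _ ⟨x, hx, rfl⟩
      apply AnalyticAt.fun_comp (g := f)
      · rw [L.symm_apply_apply]; exact hf x hx
      · exact (L.symm : (Fin (Module.finrank ℝ E) → ℝ) →L[ℝ] E).analyticAt _)
    (by
      obtain ⟨x, hx, hne⟩ := h0
      exact ⟨L x, ⟨x, hx, rfl⟩, by simpa using hne⟩)
  have h2 : (μ.map L) {y ∈ L '' U | f (L.symm y) = 0} = 0 :=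
    (Measure.absolutelyContinuous_isAddHaarMeasure (μ.map L) volume) h1
  have h3 : (μ.map L) {y ∈ L '' U | f (L.symm y) = 0} =
      μ (L ⁻¹' {y ∈ L '' U | f (L.symm y) = 0}) :=
    L.toHomeomorph.toMeasurableEquiv.map_apply _
  rw [h3] at h2
  refine measure_mono_null ?_ h2
  rintro x ⟨hx, hx0⟩
  have h4 : L x ∈ L '' U := ⟨x, hx, rfl⟩
  have h5 : f (L.symm (L x)) = 0 := by rw [L.symm_apply_apply]; exact hx0
  exact ⟨h4, h5⟩

/-- A real analytic function on a connected open set which vanishes on a set of positive measure is zero. -/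
theorem eqOn_zero {E : Type*} [NormedAddCommGroup E] [NormedSpace ℝ E] [FiniteDimensional ℝ E]
    [MeasurableSpace E] [BorelSpace E] (μ : Measure E) [μ.IsAddHaarMeasure]
    {U : Set E} (hU : IsOpen U) (hc : IsPreconnected U) {f : E → F} (hf : AnalyticOnNhd ℝ f U)
    {S : Set E} (hS : S ⊆ U) (hμ : μ S ≠ 0) (h0 : ∀ x ∈ S, f x = 0) : ∀ x ∈ U, f x = 0 := by
  by_contra hcon
  push Not at hcon
  have h1 : S ⊆ {x ∈ U | f x = 0} := by
    intro x hx
    have h2 : x ∈ U := hS hx
    have h3 : f x = 0 := h0 x hx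
    exact ⟨h2, h3⟩
  exact hμ (measure_mono_null h1 (null_haar μ hU hc hf hcon))

end Pool.Agent.H44.CM
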